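import Pool.Agent.Helper70.BI.T.StT

/-!
# Fixed points of the rotation of the 4-sphere: paths avoiding two points
-/

set_option autoImplicit false

open scoped unitInterval
open Set Pool.Agent.Helper65.Barb

namespace Pool.Agent.Helper70.T

namespace FIXP

/-- three-space -/
abbrev E3 : Type := EuclideanSpace ℝ (Fin 3)

/-- the 2-sphere -/
abbrev Sp2 : Type := Metric.sphere (0 : E3) 1

theorem mem_Sp2 {x : E3} :
    x ∈ Metric.sphere (0 : E3) 1 ↔ x 0 ^ 2 + x 1 ^ 2 + x 2 ^ 2 = 1 := by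
  rw [mem_sphere_zero_iff_norm, EuclideanSpace.norm_eq, Real.sqrt_eq_one]
  simp only [Fin.sum_univ_three, Real.norm_eq_abs, sq_abs]

/-- two points of the sphere are joined by a path avoiding two given points -/
theorem core (a b u v : Sp2) (hua : u ≠ a) (hub : u ≠ b) (hva : v ≠ a) (hvb : v ≠ b) :
    ∃ p : Path u v, ∀ t, p t ≠ a ∧ p t ≠ b := by
  have ha : ‖(a : E3)‖ = 1 := mem_sphere_zero_iff_norm.1 a.2
  have hfr : Module.finrank ℝ E3 = 2 + 1 := by simp
  have hF : Fact (Module.finrank ℝ E3 = 2 + 1) := ⟨hfr⟩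
  have ha0 : (a : E3) ≠ 0 := by
    intro h
    rw [h, norm_zero] at ha
    exact zero_ne_one ha
  have hfr2 : Module.finrank ℝ (ℝ ∙ (a : E3))ᗮ = 2 :=
    Submodule.finrank_orthogonal_span_singleton ha0
  have hrk : 1 < Module.rank ℝ (ℝ ∙ (a : E3))ᗮ := by
    rw [← Module.finrank_eq_rank, hfr2]
    exact_mod_cast one_lt_two
  have hinv : ∀ x : Sp2, x ≠ a → stereoInvFun ha (stereoToFun (a : E3) x) = x := by
    intro x hx
    apply stereo_left_inv ha
    intro h
    exact hx (Subtype.ext h)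
  have hne : ∀ w, stereoInvFun ha w ≠ a := by
    intro w
    exact stereoInvFun_ne_north_pole ha w
  have key : ∃ q : Path (stereoToFun (a : E3) u) (stereoToFun (a : E3) v),
      ∀ t, stereoInvFun ha (q t) ≠ b := by
    by_cases hba : b = a
    · refine ⟨PathConnectedSpace.somePath _ _, fun t => ?_⟩
      rw [hba]
      exact hne _
    · have hc := isPathConnected_compl_singleton_of_one_lt_rank hrk (stereoToFun (a : E3) b)
      have hu : stereoToFun (a : E3) u ∈ ({stereoToFun (a : E3) b}ᶜ : Set (ℝ ∙ (a : E3))ᗮ) := by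
        intro h
        apply hub
        rw [← hinv u hua, ← hinv b hba, mem_singleton_iff.1 h]
      have hv : stereoToFun (a : E3) v ∈ ({stereoToFun (a : E3) b}ᶜ : Set (ℝ ∙ (a : E3))ᗮ) := by
        intro h
        apply hvb
        rw [← hinv v hva, ← hinv b hba, mem_singleton_iff.1 h]
      have hj := hc.joinedIn _ hu _ hv
      refine ⟨hj.somePath, fun t h => ?_⟩
      have h2 := hj.somePath_mem t
      apply h2
      rw [mem_singleton_iff, ← stereo_right_inv ha (hj.somePath t), h]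
  obtain ⟨q, hq⟩ := key
  refine ⟨((q.map (continuous_stereoInvFun ha)).cast (hinv u hua).symm (hinv v hva).symm),
    fun t => ⟨hne _, hq t⟩⟩

/-- the point of the sphere with coordinate `i` equal to `1` -/
noncomputable def pt (i : Fin 3) : Sp2 :=
  ⟨EuclideanSpace.single i 1, by simp⟩

theorem pt_inj {i j : Fin 3} (h : pt i = pt j) : i = j := by
  have h2 : (pt i : E3) i = (pt j : E3) i := by rw [h]
  by_contra hc
  simp [pt, hc] at h2

theorem third (u v : Sp2) : ∃ c : Sp2, c ≠ u ∧ c ≠ v := by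
  by_contra hc
  have h : ∀ c : Sp2, c ≠ u → c = v := by
    intro c hcu
    by_contra hcv
    exact hc ⟨c, hcu, hcv⟩
  have d01 : pt 0 ≠ pt 1 := fun e => absurd (pt_inj e) (by decide)
  have d02 : pt 0 ≠ pt 2 := fun e => absurd (pt_inj e) (by decide)
  have d12 : pt 1 ≠ pt 2 := fun e => absurd (pt_inj e) (by decide)
  by_cases h0 : pt 0 = u
  · have h1 : pt 1 = v := h _ (fun e => d01 (h0.trans e.symm))
    have h2 : pt 2 = v := h _ (fun e => d02 (h0.trans e.symm))
    exact d12 (h1.trans h2.symm)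
  · have h0v : pt 0 = v := h _ h0
    by_cases h1 : pt 1 = u
    · have h2 : pt 2 = v := h _ (fun e => d12 (h1.trans e.symm))
      exact d02 (h0v.trans h2.symm)
    · exact d01 (h0v.trans (h _ h1).symm)

/-- the fixed sphere -/
noncomputable def emb (u : Sp2) : S4 :=
  ⟨!₂[(u : E3) 0, (u : E3) 1, (u : E3) 2, 0, 0], by
    have h := mem_Sp2.1 u.2
    rw [mem_S4]
    simp only [Fin.isValue, PiLp.toLp_apply]
    simp
    linarith⟩

theorem emb_cont : Continuous emb := by
  unfold emb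
  refine Continuous.subtype_mk ?_ _
  refine (PiLp.continuous_toLp 2 _).comp ?_
  refine continuous_pi ?_
  intro i
  fin_cases i
  · exact (EuclideanSpace.proj (𝕜 := ℝ) (0 : Fin 3)).continuous.comp continuous_subtype_val
  · exact (EuclideanSpace.proj (𝕜 := ℝ) (1 : Fin 3)).continuous.comp continuous_subtype_val
  · exact (EuclideanSpace.proj (𝕜 := ℝ) (2 : Fin 3)).continuous.comp continuous_subtype_val
  · exact continuous_const
  · exact continuous_const

theorem emb_fix (u : Sp2) (θ : ℝ) : spin4 θ (emb u) = emb u := by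
  apply Subtype.ext
  ext i
  change turn θ (emb u).1 i = (emb u).1 i
  fin_cases i
  · rfl
  · rfl
  · rfl
  · change Real.cos θ * (0 : ℝ) - Real.sin θ * (0 : ℝ) = 0
    ring
  · change Real.sin θ * (0 : ℝ) + Real.cos θ * (0 : ℝ) = 0
    ring

theorem fix_coord {x : S4} (h : ∀ θ, spin4 θ x = x) : (x : EuclideanSpace ℝ (Fin 5)) 3 = 0 ∧
    (x : EuclideanSpace ℝ (Fin 5)) 4 = 0 := by
  have h1 : turn Real.pi x.1 = x.1 := congrArg Subtype.val (h Real.pi)
  have h3 : turn Real.pi x.1 3 = x.1 3 := by rw [h1]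
  have h4 : turn Real.pi x.1 4 = x.1 4 := by rw [h1]
  rw [turn_3, Real.cos_pi, Real.sin_pi] at h3
  rw [turn_4, Real.cos_pi, Real.sin_pi] at h4
  constructor <;> linarith

theorem exists_emb {x : S4} (h : ∀ θ, spin4 θ x = x) : ∃ u : Sp2, emb u = x := by
  obtain ⟨h3, h4⟩ := fix_coord h
  have hx := mem_S4.1 x.2
  refine ⟨⟨!₂[x.1 0, x.1 1, x.1 2], ?_⟩, ?_⟩
  · rw [mem_Sp2]
    change x.1 0 ^ 2 + x.1 1 ^ 2 + x.1 2 ^ 2 = 1
    rw [h3, h4] at hx
    linarith
  · apply Subtype.ext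
    ext i
    fin_cases i
    · rfl
    · rfl
    · rfl
    · exact h3.symm
    · exact h4.symm

theorem emb_inj {u v : Sp2} (h : emb u = emb v) : u = v := by
  have h0 : (emb u).1 0 = (emb v).1 0 := by rw [h]
  have h1 : (emb u).1 1 = (emb v).1 1 := by rw [h]
  have h2 : (emb u).1 2 = (emb v).1 2 := by rw [h]
  apply Subtype.ext
  ext i
  fin_cases i
  · exact h0
  · exact h1
  · exact h2

/-- the point of the 2-sphere to be avoided -/
theorem avoid (a : S4) (u v : Sp2) (hu : emb u ≠ a) (hv : emb v ≠ a) :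
    ∃ a' : Sp2, u ≠ a' ∧ v ≠ a' ∧ ∀ w : Sp2, w ≠ a' → emb w ≠ a := by
  by_cases h : ∃ a' : Sp2, emb a' = a
  · obtain ⟨a', rfl⟩ := h
    exact ⟨a', fun e => hu (by rw [e]), fun e => hv (by rw [e]), fun w hw e => hw (emb_inj e)⟩
  · obtain ⟨c, hcu, hcv⟩ := third u v
    exact ⟨c, hcu.symm, hcv.symm, fun w _ e => h ⟨w, e⟩⟩

end FIXP

open FIXP in
/-- MODULE FIXP -/
theorem m_FIXP : StFIXP := by
  intro a b x y hxa hxb hya hyb hx hy
  obtain ⟨u, rfl⟩ := exists_emb hx
  obtain ⟨v, rfl⟩ := exists_emb hy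
  obtain ⟨a', hua, hva, ha⟩ := avoid a u v hxa hya
  obtain ⟨b', hub, hvb, hb⟩ := avoid b u v hxb hyb
  obtain ⟨p, hp⟩ := core a' b' u v hua hub hva hvb
  exact ⟨p.map emb_cont, fun t => ⟨ha _ (hp t).1, hb _ (hp t).2, fun θ => emb_fix _ θ⟩⟩

end Pool.Agent.Helper70.T
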